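import Pool.Agent.Helper21.DN.Stmts

set_option autoImplicit false

/-! # A cyclic quotient of `H` detecting `z` -/

namespace Pool.Agent.Helper35.DN

open Pool.Agent.Helper21.DN

universe u

theorem chr_key {H : Type u} [Group H] [Finite H] (z : H) (hz : z ∉ commutator H) :
    ∃ ψ : H →* ℂˣ, ψ z ≠ 1 := by
  have h1 : Abelianization.of z ≠ 1 := by
    intro h
    exact hz ((QuotientGroup.eq_one_iff z).1 h)
  obtain ⟨χ, hχ⟩ := CommGroup.exists_apply_ne_one_of_hasEnoughRootsOfUnity (Abelianization H) ℂ h1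
  exact ⟨χ.comp Abelianization.of, hχ⟩

theorem chr_cyc {H : Type u} [Group H] [Finite H] (ψ : H →* ℂˣ) (N : Subgroup H)
    (hN : N = ψ.ker) : ∃ _ : N.Normal, IsCyclic (H ⧸ N) := by
  subst hN
  refine ⟨inferInstance, ?_⟩
  exact isCyclic_of_injective_ringHom ((Units.coeHom ℂ).comp (QuotientGroup.kerLift ψ))
    (Units.val_injective.comp (QuotientGroup.kerLift_injective ψ))

theorem st_CHR : ST_CHR.{u} := by
  intro p _ G _ _ hG H z hz hz1
  have h1 : (⟨z, hz⟩ : H) ∉ commutator H := by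
    intro h
    apply hz1
    rw [← Subgroup.map_subtype_commutator]
    exact ⟨_, h, rfl⟩
  obtain ⟨ψ, hψ⟩ := chr_key _ h1
  have hs : (ψ.ker.map H.subtype).subgroupOf H = ψ.ker :=
    Subgroup.comap_map_eq_self_of_injective H.subtype_injective ψ.ker
  refine ⟨ψ.ker.map H.subtype, Subgroup.map_subtype_le _, ?_, chr_cyc ψ _ hs⟩
  rintro ⟨x, hx, hxz⟩
  have : x = ⟨z, hz⟩ := Subtype.ext hxz
  subst this
  exact hψ hx

end Pool.Agent.Helper35.DN
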