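import Pool.Agent.Helper21.DN.Stmts

set_option autoImplicit false

/-! # Splitting of a factor set in `L` and Hilbert 90 -/

namespace Pool.Agent.Helper35.DN

open Pool.Agent.Helper21.DN

universe u

section aux

variable {K L : Type u} [Field K] [Field L] [Algebra K L] [FiniteDimensional K L] [IsGalois K L]

theorem ema_trace : ∃ θ : L, ∀ σ : L ≃ₐ[K] L, ∑ τ : L ≃ₐ[K] L, (σ * τ) θ = 1 := by
  obtain ⟨θ, hθ⟩ := Algebra.trace_surjective K L 1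
  refine ⟨θ, fun σ => ?_⟩
  have h := trace_eq_sum_automorphisms (K := K) θ
  rw [hθ, map_one] at h
  rw [h]
  exact Fintype.sum_equiv (Equiv.mulLeft σ) _ _ fun τ => rfl

/-- splitting of a factor set -/
theorem ema_split (C : (L ≃ₐ[K] L) → (L ≃ₐ[K] L) → L) (hfix : ∀ ρ σ τ : L ≃ₐ[K] L, ρ (C σ τ) = C σ τ)
    (hC : ∀ σ τ ρ, C σ τ + C (σ * τ) ρ = C τ ρ + C σ (τ * ρ)) :
    ∃ b : (L ≃ₐ[K] L) → L, ∀ σ τ, b σ + σ (b τ) = b (σ * τ) + C σ τ := by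
  obtain ⟨θ, hθ⟩ := ema_trace (K := K) (L := L)
  refine ⟨fun σ => ∑ τ : L ≃ₐ[K] L, C σ τ * (σ * τ) θ, fun σ τ => ?_⟩
  have h1 : ∑ ρ : L ≃ₐ[K] L, C σ ρ * (σ * ρ) θ =
      ∑ ρ : L ≃ₐ[K] L, C σ (τ * ρ) * (σ * τ * ρ) θ := by
    refine (Fintype.sum_equiv (Equiv.mulLeft τ) _ _ fun ρ => ?_).symm
    rw [Equiv.coe_mulLeft, mul_assoc]
  have h2 : σ (∑ ρ : L ≃ₐ[K] L, C τ ρ * (τ * ρ) θ) =
      ∑ ρ : L ≃ₐ[K] L, C τ ρ * (σ * τ * ρ) θ := by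
    rw [map_sum]
    refine Finset.sum_congr rfl fun ρ _ => ?_
    rw [map_mul, hfix]
    rfl
  have h3 : C σ τ = ∑ ρ : L ≃ₐ[K] L, C σ τ * (σ * τ * ρ) θ := by
    rw [← Finset.mul_sum, hθ, mul_one]
  have goal : ∑ ρ : L ≃ₐ[K] L, C σ ρ * (σ * ρ) θ + σ (∑ ρ : L ≃ₐ[K] L, C τ ρ * (τ * ρ) θ) =
      ∑ ρ : L ≃ₐ[K] L, C (σ * τ) ρ * (σ * τ * ρ) θ + C σ τ := by
    rw [h1, h2, h3, ← Finset.sum_add_distrib, ← Finset.sum_add_distrib]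
    refine Finset.sum_congr rfl fun ρ _ => ?_
    linear_combination (-(σ * τ * ρ) θ) * hC σ τ ρ
  exact goal

/-- additive Hilbert 90 -/
theorem ema_h90 (a : (L ≃ₐ[K] L) → L) (ha : ∀ σ τ, a (σ * τ) = a σ + σ (a τ)) :
    ∃ f : L, ∀ σ, a σ = σ f - f := by
  obtain ⟨θ, hθ⟩ := ema_trace (K := K) (L := L)
  refine ⟨-∑ τ : L ≃ₐ[K] L, a τ * τ θ, fun σ => ?_⟩
  have h1 : ∑ τ : L ≃ₐ[K] L, a τ * τ θ = ∑ τ : L ≃ₐ[K] L, a (σ * τ) * (σ * τ) θ :=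
    (Fintype.sum_equiv (Equiv.mulLeft σ) _ _ fun ρ => rfl).symm
  have h2 : σ (∑ τ : L ≃ₐ[K] L, a τ * τ θ) = ∑ τ : L ≃ₐ[K] L, σ (a τ) * (σ * τ) θ := by
    rw [map_sum]
    refine Finset.sum_congr rfl fun ρ _ => ?_
    rw [map_mul, AlgEquiv.mul_apply]
  have h3 : a σ = ∑ τ : L ≃ₐ[K] L, a σ * (σ * τ) θ := by
    rw [← Finset.mul_sum, hθ, mul_one]
  rw [map_neg, h2, neg_sub_neg, h1, ← Finset.sum_sub_distrib]
  refine h3.trans (Finset.sum_congr rfl fun τ _ => ?_)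
  rw [ha σ τ]
  ring

end aux

theorem st_EMA : ST_EMA.{u} := by
  intro p _ K L _ _ _ _ _ _ c hc
  have : CharP L p := charP_of_injective_algebraMap (algebraMap K L).injective p
  have hp : p.Prime := Fact.out
  set C : (L ≃ₐ[K] L) → (L ≃ₐ[K] L) → L := fun σ τ => ((c σ τ).val : L) with hCdef
  have hCc : ∀ σ τ, C σ τ = ZMod.castHom (dvd_refl p) L (c σ τ) := by
    intro σ τ
    rw [hCdef, ZMod.castHom_apply]
    exact ZMod.natCast_val _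
  have hfix : ∀ ρ σ τ : L ≃ₐ[K] L, ρ (C σ τ) = C σ τ := fun ρ σ τ => map_natCast ρ _
  have hC : ∀ σ τ ρ, C σ τ + C (σ * τ) ρ = C τ ρ + C σ (τ * ρ) := by
    intro σ τ ρ
    rw [hCc, hCc, hCc, hCc, ← map_add, ← map_add, hc]
  have hCp : ∀ σ τ, C σ τ ^ p = C σ τ := by
    intro σ τ
    rw [hCc, ← map_pow, ZMod.pow_card]
  obtain ⟨b, hb⟩ := ema_split C hfix hC
  obtain ⟨f, hf⟩ := ema_h90 (fun σ => b σ ^ p - b σ) (fun σ τ => by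
    have h1 : b (σ * τ) = b σ + σ (b τ) - C σ τ := by
      rw [hb]
      ring
    have h2 : b (σ * τ) ^ p = b σ ^ p + σ (b τ) ^ p - C σ τ := by
      rw [h1, sub_pow_char, add_pow_char, hCp]
    have h3 : σ (b τ ^ p - b τ) = σ (b τ) ^ p - σ (b τ) := by rw [map_sub, map_pow]
    show b (σ * τ) ^ p - b (σ * τ) = b σ ^ p - b σ + σ (b τ ^ p - b τ)
    rw [h2, h3, h1]
    ring)
  exact ⟨b, f, hb, hf⟩

end Pool.Agent.Helper35.DN
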