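import Pool.Agent.Helper21.DN.Stmts

set_option autoImplicit false

/-! # Reduction of the polynomials used in the construction -/

namespace Pool.Agent.Helper35.DN

open Pool.Agent.Helper21.DN

universe u

section aux

variable {E : Type u} [Field E] (v : AddValuation E (WithTop ℤ))

theorem pol_mul {a b : ℤ} {x y : E} (hx : ((a : ℤ) : WithTop ℤ) ≤ v x)
    (hy : ((b : ℤ) : WithTop ℤ) ≤ v y) : ((a + b : ℤ) : WithTop ℤ) ≤ v (x * y) := by
  rw [v.map_mul, WithTop.coe_add]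
  exact add_le_add hx hy

theorem pol_pow {a : ℤ} {x : E} (hx : ((a : ℤ) : WithTop ℤ) ≤ v x) (m : ℕ) :
    (((m : ℤ) * a : ℤ) : WithTop ℤ) ≤ v (x ^ m) := by
  induction m with
  | zero => simp
  | succ m ih =>
    rw [pow_succ]
    have h := pol_mul v ih hx
    have e : (((m + 1 : ℕ) : ℤ) * a : ℤ) = (m : ℤ) * a + a := by
      push_cast
      ring
    rw [e]
    exact h

theorem pol_pow_eq {a : ℤ} {x : E} (hx : v x = ((a : ℤ) : WithTop ℤ)) (m : ℕ) :
    v (x ^ m) = (((m : ℤ) * a : ℤ) : WithTop ℤ) := by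
  induction m with
  | zero => simp
  | succ m ih =>
    rw [pow_succ, v.map_mul, ih, hx, ← WithTop.coe_add]
    congr 1
    push_cast
    ring

theorem pol_two {w Y : E} {q : ℤ} (hq : 1 ≤ q) (hw : (((-1 : ℤ)) : WithTop ℤ) ≤ v w)
    (hY : (((-q : ℤ)) : WithTop ℤ) ≤ v Y) (hN : ∀ m : ℕ, ((0 : ℤ) : WithTop ℤ) ≤ v (m : E)) (m : ℕ) :
    ∃ R : E, (Y - w) ^ (m + 2) = Y ^ (m + 2) - (m + 2 : ℕ) * w * Y ^ (m + 1) + w ^ 2 * R ∧
      ((-(q * m) : ℤ) : WithTop ℤ) ≤ v R := by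
  induction m with
  | zero =>
    refine ⟨1, by push_cast; ring, ?_⟩
    simp
  | succ m ih =>
    obtain ⟨R, h1, h2⟩ := ih
    refine ⟨R * Y + (m + 2 : ℕ) * Y ^ (m + 1) - w * R, ?_, ?_⟩
    · rw [show m + 1 + 2 = (m + 2) + 1 from rfl, pow_succ, h1]
      push_cast
      ring
    · have a1 := pol_mul v h2 hY
      have a2 := pol_mul v (hN (m + 2)) (pol_pow v hY (m + 1))
      have a3 := pol_mul v hw h2
      refine (v.map_le_sub (v.map_le_add (le_trans ?_ a1) (le_trans ?_ a2)) (le_trans ?_ a3))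
      · rw [WithTop.coe_le_coe]
        push_cast
        nlinarith
      · rw [WithTop.coe_le_coe]
        push_cast
        nlinarith
      · rw [WithTop.coe_le_coe]
        push_cast
        nlinarith

theorem pol_three {w Y : E} {q : ℤ} (hq : 1 ≤ q) (hw : (((-1 : ℤ)) : WithTop ℤ) ≤ v w)
    (hY : (((-q : ℤ)) : WithTop ℤ) ≤ v Y) (hN : ∀ m : ℕ, ((0 : ℤ) : WithTop ℤ) ≤ v (m : E)) (m : ℕ) :
    ∃ S : E, (Y - w) ^ (m + 3) = Y ^ (m + 3) - (m + 3 : ℕ) * w * Y ^ (m + 2) +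
        ((m + 3).choose 2 : ℕ) * w ^ 2 * Y ^ (m + 1) + w ^ 3 * S ∧
      ((-(q * m) : ℤ) : WithTop ℤ) ≤ v S := by
  induction m with
  | zero =>
    refine ⟨-1, ?_, ?_⟩
    · rw [show Nat.choose (0 + 3) 2 = 3 from rfl]
      push_cast
      ring
    · simp
  | succ m ih =>
    obtain ⟨S, h1, h2⟩ := ih
    refine ⟨S * Y - ((m + 3).choose 2 : ℕ) * Y ^ (m + 1) - w * S, ?_, ?_⟩
    · have hc : (((m + 1 + 3).choose 2 : ℕ) : E) = ((m + 3).choose 2 : ℕ) + (m + 3 : ℕ) := by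
        rw [← Nat.cast_add]
        congr 1
        rw [show m + 1 + 3 = (m + 3) + 1 from rfl, Nat.choose_succ_succ' (m + 3) 1,
          Nat.choose_one_right, add_comm]
      rw [hc, show m + 1 + 3 = (m + 3) + 1 from rfl, pow_succ, h1]
      push_cast
      ring
    · have a1 := pol_mul v h2 hY
      have a2 := pol_mul v (hN ((m + 3).choose 2)) (pol_pow v hY (m + 1))
      have a3 := pol_mul v hw h2
      refine (v.map_le_sub (v.map_le_sub (le_trans ?_ a1) (le_trans ?_ a2)) (le_trans ?_ a3))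
      · rw [WithTop.coe_le_coe]
        push_cast
        nlinarith
      · rw [WithTop.coe_le_coe]
        push_cast
        nlinarith
      · rw [WithTop.coe_le_coe]
        push_cast
        nlinarith

theorem pol_frob (p : ℕ) [Fact p.Prime] [CharP E p] (g : ℕ) (x : E) :
    ∃ h : E, h ^ p - h = x ^ p ^ g - x := by
  induction g with
  | zero =>
    refine ⟨0, ?_⟩
    rw [zero_pow (Nat.Prime.ne_zero Fact.out)]
    simp
  | succ g ih =>
    obtain ⟨h, hh⟩ := ih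
    refine ⟨h + x ^ p ^ g, ?_⟩
    rw [add_pow_char, pow_succ p g, pow_mul]
    linear_combination hh

end aux

theorem pol_lt {a b : ℤ} (h : a < b) {x : WithTop ℤ} (hx : (b : WithTop ℤ) ≤ x) :
    (a : WithTop ℤ) < x := lt_of_lt_of_le (WithTop.coe_lt_coe.2 h) hx

open scoped Classical in
theorem st_POL : ST_POL.{u} := by
  intro p _ k E _ _ _ _ κ v hκ g hg w hw n hn hpn hpn1 hp2 e z hez
  have : CharP E p := charP_of_injective_ringHom κ.injective p
  have hp : p.Prime := Fact.out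
  have hp3 : 3 ≤ p := by
    have := hp.two_le
    omega
  obtain ⟨m, rfl⟩ : ∃ m, n = m + 2 := ⟨n - 2, by omega⟩
  set q : ℕ := p ^ g with hq
  have hq3 : 3 ≤ q := by
    calc 3 ≤ p := hp3
      _ = p ^ 1 := (pow_one p).symm
      _ ≤ p ^ g := Nat.pow_le_pow_right hp.pos hg
  have hκ0 : ∀ c : k, ((0 : ℤ) : WithTop ℤ) ≤ v (κ c) := by
    intro c
    by_cases hc : c = 0
    · rw [hc, map_zero, v.map_zero]
      exact le_top
    · rw [hκ c hc]
      exact le_rfl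
  have hN : ∀ j : ℕ, ((0 : ℤ) : WithTop ℤ) ≤ v (j : E) := by
    intro j
    rw [← map_natCast κ]
    exact hκ0 _
  have hw1 : (((-1 : ℤ)) : WithTop ℤ) ≤ v w := hw.ge
  have hYe : v (w ^ q) = ((-(q : ℤ) : ℤ) : WithTop ℤ) := by
    rw [pol_pow_eq v hw q]
    congr 1
    ring
  obtain ⟨R, hR, hR'⟩ := pol_two v (q := (q : ℤ)) (by omega) hw1 hYe.ge hN m
  obtain ⟨S, hS, hS'⟩ := pol_three v (q := (q : ℤ)) (by omega) hw1 hYe.ge hN m
  set Y : E := w ^ q with hY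
  obtain ⟨e1, he1⟩ := IsAlgClosed.exists_pow_nat_eq e (n := q) (by omega)
  obtain ⟨z1, hz1⟩ := IsAlgClosed.exists_pow_nat_eq (z * (((m + 2 : ℕ) : k) + 1)⁻¹) (n := q)
    (by omega)
  obtain ⟨h1, hh1⟩ := pol_frob p g (κ e1 * w ^ (m + 2))
  obtain ⟨h2, hh2⟩ := pol_frob p g (κ z1 * w ^ (m + 3))
  set u : k := (((m + 2 : ℕ) : k) + 1)⁻¹ with hu
  have hn0 : ((m + 2 : ℕ) : k) ≠ 0 := fun h => hpn ((CharP.cast_eq_zero_iff k p _).1 h)
  have hn1 : ((m + 2 : ℕ) : k) + 1 ≠ 0 := fun h =>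
    hpn1 ((CharP.cast_eq_zero_iff k p _).1 (by push_cast at h ⊢; exact h))
  have hu1 : (((m + 2 : ℕ) : k) + 1) * u = 1 := mul_inv_cancel₀ hn1
  -- the main coefficient
  set c2 : k := ((m + 3).choose 2 : ℕ) * u - (m + 2 : ℕ) with hc2
  have hc20 : c2 ≠ 0 := by
    intro h0
    have e0 : (m + 3).choose 2 * 2 = (m + 3) * (m + 2) := by
      rw [Nat.choose_two_right, Nat.div_mul_cancel]
      · rfl
      · exact (Nat.even_mul_pred_self (m + 3)).two_dvd
    have e1 : (((m + 3).choose 2 : ℕ) : k) * 2 = ((m + 3 : ℕ) : k) * ((m + 2 : ℕ) : k) := by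
      rw [← Nat.cast_mul, ← e0, Nat.cast_mul]
      norm_num
    have e2 : c2 * 2 * (((m + 2 : ℕ) : k) + 1) = -((m + 2 : ℕ) * (((m + 2 : ℕ) : k) + 1)) := by
      rw [hc2]
      push_cast at e1 hu1 ⊢
      linear_combination (u * ((m : k) + 2 + 1)) * e1 + ((m : k) + 3) * ((m : k) + 2) * hu1
    rw [h0, zero_mul, zero_mul] at e2
    exact mul_ne_zero hn0 hn1 (neg_eq_zero.1 e2.symm)
  have k1 : (κ e1 * w ^ (m + 2)) ^ p ^ g = κ e * Y ^ (m + 2) := by
    rw [mul_pow, ← map_pow, he1, ← pow_mul, mul_comm (m + 2) (p ^ g), pow_mul]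
  have k2 : (κ z1 * w ^ (m + 3)) ^ p ^ g = κ (z * u) * Y ^ (m + 3) := by
    rw [mul_pow, ← map_pow, hz1, ← pow_mul, mul_comm (m + 3) (p ^ g), pow_mul]
  rw [k1] at hh1
  rw [k2, map_mul] at hh2
  have hu2 : (((m + 3 : ℕ) : E)) * κ u = 1 := by
    have h := congrArg κ hu1
    rw [map_mul, map_add, map_natCast, map_one] at h
    push_cast at h ⊢
    linear_combination h
  have hid : ((Y - w) ^ (m + 2) * κ e - ((Y - w) ^ (m + 2) * w +
      (Y - w) ^ (m + 2 + 1) * κ u) * κ z - ((h1 - h2) ^ p - (h1 - h2))) =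
      κ (-(e * (m + 2 : ℕ))) * w * Y ^ (m + 1) + (κ (-(z * c2)) * (w ^ 2 * Y ^ (m + 1)) +
        (κ e * (w ^ 2 * R) - κ z * (w ^ 3 * (R + κ u * S)) + κ e1 * w ^ (m + 2) -
          κ z1 * w ^ (m + 3))) := by
    have hs : (h1 - h2) ^ p = h1 ^ p - h2 ^ p := sub_pow_char _ _
    rw [hs, hR, show m + 2 + 1 = m + 3 from rfl, hS, hc2]
    simp only [map_neg, map_mul, map_sub, map_natCast]
    linear_combination (-1 : E) * hh1 + hh2 + (w * Y ^ (m + 2) * κ z) * hu2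
  have le' : ∀ {a b : ℤ} {x : WithTop ℤ}, a ≤ b → ((b : ℤ) : WithTop ℤ) ≤ x →
      ((a : ℤ) : WithTop ℤ) ≤ x := fun h1 h2 => (WithTop.coe_le_coe.2 h1).trans h2
  have hq3' : (3 : ℤ) ≤ q := by exact_mod_cast hq3
  have hm0 : (0 : ℤ) ≤ m := Int.natCast_nonneg m
  have hqm : (m : ℤ) * 3 ≤ q * m := by nlinarith
  have r1 : ((-((q : ℤ) * (m + 1)) : ℤ) : WithTop ℤ) ≤ v (κ e * (w ^ 2 * R)) := by
    refine le' ?_ (pol_mul v (hκ0 e) (pol_mul v (pol_pow v hw1 2) hR'))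
    push_cast
    nlinarith
  have r3 : ((-((q : ℤ) * (m + 1)) : ℤ) : WithTop ℤ) ≤ v (κ e1 * w ^ (m + 2)) := by
    refine le' ?_ (pol_mul v (hκ0 e1) (pol_pow v hw1 (m + 2)))
    push_cast
    nlinarith
  have r2 : ((-((q : ℤ) * (m + 1) + 1) : ℤ) : WithTop ℤ) ≤ v (κ z * (w ^ 3 * (R + κ u * S))) := by
    have h0 : ((-((q : ℤ) * m) : ℤ) : WithTop ℤ) ≤ v (κ u * S) := by
      have := pol_mul v (hκ0 u) hS'
      rwa [zero_add] at this
    refine le' ?_ (pol_mul v (hκ0 z) (pol_mul v (pol_pow v hw1 3) (v.map_le_add hR' h0)))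
    push_cast
    nlinarith
  have r4 : ((-((q : ℤ) * (m + 1) + 1) : ℤ) : WithTop ℤ) ≤ v (κ z1 * w ^ (m + 3)) := by
    refine le' ?_ (pol_mul v (hκ0 z1) (pol_pow v hw1 (m + 3)))
    push_cast
    nlinarith
  refine ⟨h1 - h2, ?_⟩
  have hcoe : ((m + 2 : ℕ) - 1 : ℕ) = m + 1 := rfl
  rw [hid]
  by_cases hz : z = 0
  · have he : e ≠ 0 := hez.resolve_left (not_not.2 hz)
    have hz1' : z1 = 0 := by
      rw [hz, zero_mul] at hz1
      exact pow_eq_zero_iff (by omega) |>.1 hz1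
    have hv : v (κ (-(e * (m + 2 : ℕ))) * w * Y ^ (m + 1)) =
        ((-((q : ℤ) * (m + 1) + 1) : ℤ) : WithTop ℤ) := by
      rw [v.map_mul, v.map_mul, hκ _ (neg_ne_zero.2 (mul_ne_zero he hn0)), hw,
        pol_pow_eq v hYe (m + 1), zero_add, ← WithTop.coe_add]
      congr 1
      push_cast
      ring
    have hrest : ((-((q : ℤ) * (m + 1)) : ℤ) : WithTop ℤ) ≤ v (κ (-(z * c2)) * (w ^ 2 * Y ^ (m + 1)) +
        (κ e * (w ^ 2 * R) - κ z * (w ^ 3 * (R + κ u * S)) + κ e1 * w ^ (m + 2) -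
          κ z1 * w ^ (m + 3))) := by
      rw [hz, hz1']
      simp only [zero_mul, neg_zero, map_zero, zero_add, sub_zero]
      exact v.map_le_add r1 r3
    rw [v.map_add_eq_of_lt_left (lt_of_eq_of_lt hv (pol_lt (by omega) hrest)), hv, if_pos hz, hcoe]
    congr 1
  · have hv : v (κ (-(z * c2)) * (w ^ 2 * Y ^ (m + 1))) =
        ((-((q : ℤ) * (m + 1) + 2) : ℤ) : WithTop ℤ) := by
      rw [v.map_mul, v.map_mul, hκ _ (neg_ne_zero.2 (mul_ne_zero hz hc20)), pol_pow_eq v hw 2,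
        pol_pow_eq v hYe (m + 1), zero_add, ← WithTop.coe_add]
      congr 1
      push_cast
      ring
    have hM1 : ((-((q : ℤ) * (m + 1) + 1) : ℤ) : WithTop ℤ) ≤
        v (κ (-(e * (m + 2 : ℕ))) * w * Y ^ (m + 1)) := by
      refine le' ?_ (pol_mul v (pol_mul v (hκ0 (-(e * (m + 2 : ℕ)))) hw1) (pol_pow v hYe.ge (m + 1)))
      push_cast
      nlinarith
    have hrest : ((-((q : ℤ) * (m + 1) + 1) : ℤ) : WithTop ℤ) ≤ v (κ (-(e * (m + 2 : ℕ))) * w * Y ^ (m + 1) +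
        (κ e * (w ^ 2 * R) - κ z * (w ^ 3 * (R + κ u * S)) + κ e1 * w ^ (m + 2) -
          κ z1 * w ^ (m + 3))) :=
      v.map_le_add hM1 (v.map_le_sub (v.map_le_add (v.map_le_sub (le' (by omega) r1) r2)
        (le' (by omega) r3)) r4)
    rw [add_left_comm, v.map_add_eq_of_lt_left (lt_of_eq_of_lt hv (pol_lt (by omega) hrest)), hv,
      if_neg hz, hcoe]
    congr 1

end Pool.Agent.Helper35.DN
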